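import Pool.Agent.Helper34.EC.Defs
import Pool.Agent.Helper47.RR.B3

/-!
# Project EC (helper34), module EC-A9: from the point divisors to all divisors
-/

set_option autoImplicit false
set_option linter.style.haveILetI false

namespace Pool.Agent.Helper90.EC

open Polynomial TensorProduct Pool.Agent.Helper16 Pool.Agent.Helper47.RR Pool.Agent.Helper34.EC

/-- A nonzero element of a finitely generated domain over an algebraically closed field is nonzero
at some point. -/
theorem gd_point {k A : Type} [Field k] [IsAlgClosed k] [CommRing A] [IsDomain A] [Algebra k A]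
    [Algebra.FiniteType k A] (s : A) (hs : s ≠ 0) : ∃ φ : A →ₐ[k] k, φ s ≠ 0 := by
  have hJ : IsJacobsonRing A := isJacobsonRing_of_finiteType (A := k)
  have h1 : (⊥ : Ideal A).jacobson = ⊥ :=
    hJ.out (Ideal.isRadical_bot)
  have h2 : s ∉ (⊥ : Ideal A).jacobson := by
    rw [h1]
    exact hs
  rw [Ideal.jacobson, Ideal.mem_sInf] at h2
  push Not at h2
  obtain ⟨m, ⟨-, hm⟩, hsm⟩ := h2
  letI : Field (A ⧸ m) := Ideal.Quotient.field m
  have h3 : Algebra.FiniteType k (A ⧸ m) :=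
    Algebra.FiniteType.of_surjective (Ideal.Quotient.mkₐ k m) (Ideal.Quotient.mkₐ_surjective k m)
  have h4 : Module.Finite k (A ⧸ m) := finite_of_finite_type_of_isJacobsonRing k (A ⧸ m)
  have h5 : Function.Bijective (algebraMap k (A ⧸ m)) :=
    IsAlgClosed.algebraMap_bijective_of_isIntegral
  let e : k ≃ₐ[k] (A ⧸ m) := AlgEquiv.ofBijective (Algebra.ofId k (A ⧸ m)) h5
  refine ⟨e.symm.toAlgHom.comp (Ideal.Quotient.mkₐ k m), ?_⟩
  intro h6
  apply hsm
  have h7 : e.symm (Ideal.Quotient.mk m s) = 0 := h6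
  rw [EmbeddingLike.map_eq_zero_iff] at h7
  exact Ideal.Quotient.eq_zero_iff_mem.1 h7

/-- The tensor product of two domains over an algebraically closed field has no zero divisors. -/
theorem gd_domain {k A B : Type} [Field k] [IsAlgClosed k] [CommRing A] [IsDomain A] [Algebra k A]
    [CommRing B] [IsDomain B] [Algebra k B] (x y : A ⊗[k] B) (hxy : x * y = 0) :
    x = 0 ∨ y = 0 := by
  classical
  by_contra hcon
  push Not at hcon
  obtain ⟨hx, hy⟩ := hcon
  let b := Module.Basis.ofVectorSpace k B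
  let bA := Algebra.TensorProduct.basis A b
  have h1 : bA.repr x ≠ 0 := fun h => hx (by simpa using h)
  have h2 : bA.repr y ≠ 0 := fun h => hy (by simpa using h)
  obtain ⟨i, hi⟩ := Finsupp.ne_iff.1 h1
  obtain ⟨j, hj⟩ := Finsupp.ne_iff.1 h2
  rw [Finsupp.zero_apply] at hi hj
  -- the subalgebra generated by the coefficients
  let T : Finset A := (bA.repr x).support.image (bA.repr x) ∪
    (bA.repr y).support.image (bA.repr y)
  let A' : Subalgebra k A := Algebra.adjoin k (T : Set A)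
  have hA' : Algebra.FiniteType k A' :=
    (Subalgebra.fg_iff_finiteType A').1 ⟨T, rfl⟩
  have hxA : ∀ l, bA.repr x l ∈ A' := by
    intro l
    by_cases h : bA.repr x l = 0
    · rw [h]; exact A'.zero_mem
    · exact Algebra.subset_adjoin (Finset.mem_coe.2 (Finset.mem_union_left _
        (Finset.mem_image_of_mem _ (Finsupp.mem_support_iff.2 h))))
  have hyA : ∀ l, bA.repr y l ∈ A' := by
    intro l
    by_cases h : bA.repr y l = 0
    · rw [h]; exact A'.zero_mem
    · exact Algebra.subset_adjoin (Finset.mem_coe.2 (Finset.mem_union_right _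
        (Finset.mem_image_of_mem _ (Finsupp.mem_support_iff.2 h))))
  let s : A' := ⟨bA.repr x i, hxA i⟩ * ⟨bA.repr y j, hyA j⟩
  have hs : s ≠ 0 := by
    intro h
    have := congrArg (Subtype.val) h
    exact (mul_ne_zero hi hj) this
  obtain ⟨φ, hφ⟩ := gd_point (k := k) s hs
  -- lifts of `x` and `y`
  let x' : A' ⊗[k] B := ∑ l ∈ (bA.repr x).support, (⟨bA.repr x l, hxA l⟩ : A') ⊗ₜ[k] b l
  let y' : A' ⊗[k] B := ∑ l ∈ (bA.repr y).support, (⟨bA.repr y l, hyA l⟩ : A') ⊗ₜ[k] b l
  let ι : A' ⊗[k] B →ₐ[k] A ⊗[k] B := Algebra.TensorProduct.map A'.val (AlgHom.id k B)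
  have hι : Function.Injective ι := by
    have h3 : Function.Injective (LinearMap.rTensor B (A'.val.toLinearMap)) :=
      Module.Flat.rTensor_preserves_injective_linearMap _ Subtype.val_injective
    intro u v huv
    exact h3 huv
  have hrep : ∀ z : A ⊗[k] B, z = ∑ l ∈ (bA.repr z).support, (bA.repr z l) ⊗ₜ[k] b l := by
    intro z
    conv_lhs => rw [← bA.linearCombination_repr z]
    rw [Finsupp.linearCombination_apply, Finsupp.sum]
    refine Finset.sum_congr rfl fun l _ => ?_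
    rw [Algebra.TensorProduct.basis_apply, TensorProduct.smul_tmul', smul_eq_mul, mul_one]
  have hx' : ι x' = x := by
    rw [map_sum]
    conv_rhs => rw [hrep x]
    rfl
  have hy' : ι y' = y := by
    rw [map_sum]
    conv_rhs => rw [hrep y]
    rfl
  have hxy' : x' * y' = 0 := by
    apply hι
    rw [map_mul, hx', hy', hxy, map_zero]
  -- specialise
  let ψ : A' ⊗[k] B →ₐ[k] B := Algebra.TensorProduct.lift ((Algebra.ofId k B).comp φ)
    (AlgHom.id k B) (fun _ _ => mul_comm _ _)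
  have h4 : ψ x' * ψ y' = 0 := by rw [← map_mul, hxy', map_zero]
  have hψ : ∀ (c : A') (d : B), ψ (c ⊗ₜ[k] d) = φ c • d := by
    intro c d
    rw [Algebra.TensorProduct.lift_tmul, Algebra.smul_def]
    rfl
  have hlin := b.linearIndependent
  rw [linearIndependent_iff'] at hlin
  rcases mul_eq_zero.1 h4 with h5 | h5
  · rw [map_sum] at h5
    simp only [hψ] at h5
    have h6 := hlin _ _ h5 i (Finsupp.mem_support_iff.2 hi)
    apply hφ
    rw [map_mul, h6, zero_mul]
  · rw [map_sum] at h5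
    simp only [hψ] at h5
    have h6 := hlin _ _ h5 j (Finsupp.mem_support_iff.2 hj)
    apply hφ
    rw [map_mul, h6, mul_zero]

theorem gd_pow {k A B : Type} [Field k] [IsAlgClosed k] [CommRing A] [IsDomain A] [Algebra k A]
    [CommRing B] [IsDomain B] [Algebra k B] (x : A ⊗[k] B) (hx : x ≠ 0) (m : ℕ) :
    x ^ m ≠ 0 := by
  induction m with
  | zero =>
    rw [pow_zero]
    intro h
    apply hx
    rw [← mul_one x, h, mul_zero]
  | succ m ih =>
    rw [pow_succ]
    intro h
    rcases gd_domain _ _ h with h | h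
    · exact ih h
    · exact hx h

theorem gd_sq_mul {F L : Type} [Field F] [CommRing L] [Algebra F L] {V W U : Submodule F L}
    (h : ∀ a ∈ V, ∀ b ∈ W, a * b ∈ U) {x y : L ⊗[F] L} (hx : x ∈ sq V) (hy : y ∈ sq W) :
    x * y ∈ sq U := by
  unfold Pool.Agent.Helper34.EC.sq at hx hy ⊢
  induction hx using Submodule.span_induction with
  | mem x hx =>
    obtain ⟨a, ha, b, hb, rfl⟩ := hx
    induction hy using Submodule.span_induction with
    | mem y hy =>
      obtain ⟨c, hc, d, hd, rfl⟩ := hy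
      apply Submodule.subset_span
      exact ⟨a * c, h a ha c hc, b * d, h b hb d hd, by
        rw [Algebra.TensorProduct.tmul_mul_tmul]⟩
    | zero => rw [mul_zero]; exact Submodule.zero_mem _
    | add u v _ _ hu hv => rw [mul_add]; exact Submodule.add_mem _ hu hv
    | smul c u _ hu => rw [mul_smul_comm]; exact Submodule.smul_mem _ _ hu
  | zero => rw [zero_mul]; exact Submodule.zero_mem _
  | add u v _ _ hu hv => rw [add_mul]; exact Submodule.add_mem _ hu hv
  | smul c u _ hu => rw [smul_mul_assoc]; exact Submodule.smul_mem _ _ hu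

theorem gd_Lsp_mul {k L : Type} [Field k] [Field L] [Algebra k L] (D E : Dv k L) :
    ∀ a ∈ Lsp D, ∀ b ∈ Lsp E, a * b ∈ Lsp (D + E) := by
  intro a ha b hb
  rw [mem_Lsp] at ha hb ⊢
  intro v
  rw [map_mul, Finsupp.add_apply, WithZero.exp_add]
  exact mul_le_mul' (ha v) (hb v)

theorem gd_sq_pow {k L : Type} [Field k] [Field L] [Algebra k L] {E : Dv k L}
    {x : L ⊗[k] L} (hx : x ∈ sq (Lsp E)) (m : ℕ) : x ^ (m + 1) ∈ sq (Lsp ((m + 1) • E)) := by
  induction m with
  | zero => simpa using hx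
  | succ m ih =>
    rw [pow_succ, succ_nsmul]
    exact gd_sq_mul (gd_Lsp_mul _ _) ih hx

/-- EC-A9 -/
theorem general_divisor {Ω L : Type} [Field Ω] [IsAlgClosed Ω] [Field L] [Algebra Ω L]
    (hL : IsFunctionField Ω L) (v : Place Ω L) (κ C : ℝ)
    (hv : ∀ M γ : ℕ, 1 ≤ γ → (M : ℝ) - γ ≤ κ * γ - C →
      ∀ x ∈ sq (Lsp (Finsupp.single v (M : ℤ))), x ≠ 0 → x ∉ (KaehlerDifferential.ideal Ω L) ^ γ)
    (E : Dv Ω L) (γ : ℕ) (hγ : 1 ≤ γ) (x : L ⊗[Ω] L) (hx : x ∈ sq (Lsp E)) (h0 : x ≠ 0)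
    (hI : x ∈ (KaehlerDifferential.ideal Ω L) ^ γ) : κ * γ ≤ (degD E : ℝ) - γ := by
  by_contra hcon
  push Not at hcon
  -- the degree is nonnegative
  have hE : 0 ≤ degD E := by
    by_contra hneg
    push Not at hneg
    have h1 := Lsp_eq_bot hL hneg
    apply h0
    have h2 : Pool.Agent.Helper34.EC.sq (Lsp E) = ⊥ := by
      rw [h1, eq_bot_iff]
      unfold Pool.Agent.Helper34.EC.sq
      rw [Submodule.span_le]
      rintro z ⟨a, ha, b, hb, rfl⟩
      rw [Submodule.mem_bot] at ha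
      rw [ha, TensorProduct.zero_tmul]
      exact Submodule.zero_mem _
    rw [h2] at hx
    exact hx
  have hg : 0 ≤ genus Ω L := by
    have h1 := degD_sub_ell_le hL (0 : Dv Ω L)
    rw [degD_zero, ell_zero hL] at h1
    linarith
  set δ : ℝ := κ * γ - (degD E - γ) with hδ
  have hδ0 : 0 < δ := by rw [hδ]; linarith
  obtain ⟨m, hm⟩ := exists_nat_gt ((C + genus Ω L) / δ)
  have hm1 : C + genus Ω L < (m + 1 : ℕ) * δ := by
    rw [div_lt_iff₀ hδ0] at hm
    push_cast
    nlinarith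
  -- the auxiliary function
  obtain ⟨M, hM⟩ := Int.eq_ofNat_of_zero_le
    (show (0 : ℤ) ≤ (m + 1 : ℕ) * degD E + genus Ω L by positivity)
  have hell : 1 ≤ ell (Finsupp.single v (M : ℤ) - (m + 1) • E) := by
    have h1 := degD_sub_ell_le hL (Finsupp.single v (M : ℤ) - (m + 1) • E)
    rw [degD_sub, degD_single, degD_nsmul] at h1
    linarith
  obtain ⟨h, hh, hh0⟩ : ∃ h ∈ Lsp (Finsupp.single v (M : ℤ) - (m + 1) • E), h ≠ 0 := by
    by_contra hc
    push Not at hc
    have h1 : Lsp (Finsupp.single v (M : ℤ) - (m + 1) • E) = ⊥ := by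
      rw [eq_bot_iff]
      intro z hz
      exact hc z hz
    unfold ell at hell
    rw [h1, finrank_bot] at hell
    norm_num at hell
  have hsq : (h ⊗ₜ[Ω] h) ∈ sq (Lsp (Finsupp.single v (M : ℤ) - (m + 1) • E)) :=
    Submodule.subset_span ⟨h, hh, h, hh, rfl⟩
  have hx' : x ^ (m + 1) * (h ⊗ₜ[Ω] h) ∈ sq (Lsp (Finsupp.single v (M : ℤ))) := by
    have h1 := gd_sq_mul (gd_Lsp_mul _ _) (gd_sq_pow hx m) hsq
    have h2 : (m + 1) • E + (Finsupp.single v (M : ℤ) - (m + 1) • E) =
        Finsupp.single v (M : ℤ) := by abel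
    rwa [h2] at h1
  have hne : x ^ (m + 1) * (h ⊗ₜ[Ω] h) ≠ 0 := by
    intro hz
    rcases gd_domain _ _ hz with h1 | h1
    · exact gd_pow x h0 _ h1
    · have h2 : (h ⊗ₜ[Ω] h) * (h⁻¹ ⊗ₜ[Ω] h⁻¹) = (1 : L ⊗[Ω] L) := by
        rw [Algebra.TensorProduct.tmul_mul_tmul, mul_inv_cancel₀ hh0]
        rfl
      rw [h1, zero_mul] at h2
      apply h0
      rw [← mul_one x, ← h2, mul_zero]
  have hmem : x ^ (m + 1) * (h ⊗ₜ[Ω] h) ∈ (KaehlerDifferential.ideal Ω L) ^ ((m + 1) * γ) := by
    apply Ideal.mul_mem_right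
    rw [mul_comm, pow_mul]
    exact Ideal.pow_mem_pow hI _
  refine hv M ((m + 1) * γ) ?_ ?_ _ hx' hne hmem
  · exact Nat.one_le_iff_ne_zero.2 (Nat.mul_ne_zero (Nat.succ_ne_zero m) (by omega))
  · have h1 : (M : ℝ) = (m + 1 : ℕ) * (degD E : ℝ) + genus Ω L := by
      exact_mod_cast hM.symm
    rw [h1]
    push_cast at hm1 ⊢
    rw [hδ] at hm1
    nlinarith

end Pool.Agent.Helper90.EC
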